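import Pool.Agent.RLM.All

/-!
# MP_a27c8d_co: all reliability roots of matroids of rank at most four are in the unit disk
-/

set_option autoImplicit false

namespace Pool.Agent.Results.MP_a27c8d_co.RankAtLeastFive

open Pool.Agent.MatRel

theorem result :
    (∀ (α : Type) [Finite α] (M : Matroid α), M.eRank ≤ 4 →
      ∀ z : ℂ, rel M z = 0 → ‖z‖ ≤ 1) ∧
    5 ≤ rMin := by
  refine ⟨fun α _ M hM z hz => ?_, Pool.Agent.RLM.q_FIN.2⟩
  by_contra h
  exact Pool.Agent.RLM.q_FIN.1 α M hM ⟨z, not_le.1 h, hz⟩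

end Pool.Agent.Results.MP_a27c8d_co.RankAtLeastFive
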