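import Pool.Agent.MatRel.Root
import Pool.Agent.MatRel.Mat

/-!
# MP_a27c8d_co: a matroid of rank 10 and order 13 with a reliability root outside the unit disk
-/

namespace Pool.Agent.MatRel

open Finset

lemma M13_ncard : M13.E.ncard = 13 := by
  rw [M13_E, Set.ncard_univ]; simp

lemma M13_rel (z : ℂ) : rel M13 z = (1 - z) ^ 3 * hp.eval z := by
  obtain ⟨c0, c1, c2, c3, c4, c5, c6, c7, c8, c9, c10, c11, c12, c13⟩ := cc_all
  rw [rel, M13_ncard]
  simp only [indepCount_eq]
  rw [Finset.sum_range_succ, Finset.sum_range_succ, Finset.sum_range_succ, Finset.sum_range_succ,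
    Finset.sum_range_succ, Finset.sum_range_succ, Finset.sum_range_succ, Finset.sum_range_succ,
    Finset.sum_range_succ, Finset.sum_range_succ, Finset.sum_range_succ, Finset.sum_range_succ,
    Finset.sum_range_succ, Finset.sum_range_succ, Finset.sum_range_zero]
  rw [c0, c1, c2, c3, c4, c5, c6, c7, c8, c9, c10, c11, c12, c13, hp_eval]
  push_cast
  ring

lemma M13_root : HasRootOutside M13 := by
  obtain ⟨z, hz, h⟩ := exists_root_outside
  exact ⟨z, hz, by rw [M13_rel, h, mul_zero]⟩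

lemma M13_rank : M13.eRank = 10 := by
  have h1 := (N7.comap f).eRank_add_eRank_dual
  obtain ⟨B, hB⟩ := (N7.comap f).exists_isBase
  have hB' := (comap_isBase B).1 hB
  obtain ⟨⟨m, hm, hmB⟩, hinj⟩ := hB'
  have h3 : ∀ m ∈ bl, (toSet7 m).card = 3 := by decide +kernel
  have h2 : (N7.comap f).eRank = 3 := by
    rw [← hB.encard_eq_eRank, ← hinj.encard_image, ← hmB, Set.encard_coe_eq_coe_finsetCard,
      h3 m hm]
    rfl
  have h4 : (N7.comap f).E.encard = 13 := by
    rw [Matroid.comap_ground_eq, N7_E, Set.preimage_univ, Set.encard_univ]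
    simp
  rw [h2, h4] at h1
  have h5 : (3 : ℕ∞) + M13.eRank = 3 + 10 := by
    rw [show (3 : ℕ∞) + 10 = 13 by norm_num]; exact h1
  exact ENat.add_right_injective_of_ne_top (n := 3) (by decide) h5

end Pool.Agent.MatRel

namespace Pool.Agent.Results.MP_a27c8d_co.SmallerMatroid

open Pool.Agent.MatRel

theorem result :
    (∃ M : Matroid (Fin 13), M.E = Set.univ ∧ M.eRank = 10 ∧ HasRootOutside M) ∧
      rMin ≤ 10 ∧ mMin ≤ 13 := by
  refine ⟨⟨M13, M13_E, M13_rank, M13_root⟩, ?_, ?_⟩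
  · exact Nat.sInf_le ⟨13, M13, M13_E, M13_rank, M13_root⟩
  · exact Nat.sInf_le ⟨M13, M13_E, M13_root⟩

end Pool.Agent.Results.MP_a27c8d_co.SmallerMatroid
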